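import Pool.Agent.Helper70_PDS.Stmts

/-! # SEQ: from multisets to sequences -/

namespace PDS.H42

open Multiset PDS

/-- two functions with the same multiset of values differ by a bijection -/
theorem exists_equiv {α β : Type} [Fintype α] [Fintype β] (f : α → ℕ) (g : β → ℕ)
    (h : (Finset.univ : Finset α).val.map f = (Finset.univ : Finset β).val.map g) :
    ∃ e : α ≃ β, ∀ a, g (e a) = f a := by
  classical
  have hc : ∀ d : ℕ, Fintype.card {a // f a = d} = Fintype.card {b // g b = d} := by
    intro d
    have h1 := congrArg (Multiset.count d) h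
    rw [Multiset.count_map, Multiset.count_map] at h1
    rw [Fintype.card_subtype, Fintype.card_subtype]
    have e1 : ∀ {γ : Type} [Fintype γ] (k : γ → ℕ),
        card (Multiset.filter (fun a => d = k a) (Finset.univ : Finset γ).val) =
          (Finset.univ.filter fun a => k a = d).card := by
      intro γ _ k
      rw [Finset.card_def, Finset.filter_val]
      congr 1
      apply Multiset.filter_congr
      intro x _
      exact eq_comm
    rw [e1 f, e1 g] at h1
    exact h1
  let e := fun d : ℕ => Fintype.equivOfCardEq (hc d)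
  refine ⟨(Equiv.sigmaFiberEquiv f).symm.trans
    ((Equiv.sigmaCongrRight e).trans (Equiv.sigmaFiberEquiv g)), ?_⟩
  intro a
  have : (Equiv.sigmaFiberEquiv g) ((Equiv.sigmaCongrRight e) ((Equiv.sigmaFiberEquiv f).symm a)) =
      ((e (f a)) ⟨a, rfl⟩ : β) := rfl
  simp only [Equiv.trans_apply]
  rw [this]
  exact ((e (f a)) ⟨a, rfl⟩).2

/-- planarity is invariant under isomorphism -/
theorem planar_comap {V W : Type} (e : W ≃ V) (G : SimpleGraph V) (h : Planar G) :
    Planar (G.comap e) := by
  obtain ⟨D⟩ := h
  refine ⟨⟨fun w => D.pt (e w), fun a b => D.arc (e a) (e b), ?_, ?_, ?_, ?_, ?_, ?_, ?_⟩⟩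
  · intro a b hab
    exact e.injective (D.pt_inj hab)
  · intro u v huv
    exact D.cont _ _ huv
  · intro u v huv
    exact D.inj _ _ huv
  · intro u v huv
    exact D.left _ _ huv
  · intro u v huv
    exact D.right _ _ huv
  · intro u v w huv
    exact D.avoid _ _ _ huv
  · intro u v u' v' h1 h2 hne
    apply D.cross _ _ _ _ h1 h2
    intro heq
    apply hne
    have h3 := congrArg (Sym2.map e.symm) heq
    simpa using h3

theorem dg_comap {V W : Type} (e : W ≃ V) (G : SimpleGraph V) (w : W) :
    dg (G.comap e) w = dg G (e w) := by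
  unfold dg
  have h : G.neighborSet (e w) = e '' ((G.comap e).neighborSet w) := by
    ext x
    simp only [SimpleGraph.mem_neighborSet, Set.mem_image, SimpleGraph.comap_adj]
    constructor
    · intro h
      exact ⟨e.symm x, by simpa using h, by simp⟩
    · rintro ⟨y, hy, rfl⟩
      exact hy
  rw [h, Set.ncard_image_of_injective _ e.injective]

theorem rz_zeros (hA : AddStmt) (hS : SmallStmt) (z : ℕ) : Rz (replicate z 0) := by
  induction z with
  | zero => simpa using hS.1
  | succ z ih =>
    have := hA _ _ hS.2.1 ih
    rw [Multiset.singleton_add] at this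
    rwa [Multiset.replicate_succ]

theorem seq (hD : DrawStmt) (hM : MainStmt) (hA : AddStmt) (hS : SmallStmt) : SeqStmt := by
  intro n v Δ hv hpar hsup
  classical
  set D : Multiset ℕ := (Finset.univ : Finset (Fin n)).val.map v with hDdef
  set F := D.filter (fun x => ¬ x = 0) with hF
  have hsplit : D = replicate (D.count 0) 0 + F := by
    have := Multiset.filter_add_not (fun x => x = 0) D
    rw [Multiset.filter_eq'] at this
    exact this.symm
  have hsum : D.sum = ∑ i, v i := rfl
  have hsumF : F.sum = D.sum := by
    conv_rhs => rw [hsplit]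
    simp
  have hdem : demand F = ∑ i, (v i - 6) := by
    have h1 : demand D = ∑ i, (v i - 6) := by
      unfold demand
      rw [hDdef, Multiset.map_map]
      rfl
    rw [← h1]
    unfold demand
    conv_rhs => rw [hsplit]
    simp
  have hcnt : ∀ d : ℕ, d ≠ 0 → F.count d = Nat.card {i // v i = d} := by
    intro d hd
    have h1 : F.count d = D.count d := by
      conv_rhs => rw [hsplit]
      rw [Multiset.count_add, Multiset.count_replicate, if_neg (Ne.symm hd), zero_add]
    rw [h1, hDdef, Multiset.count_map, Nat.card_eq_fintype_card, Fintype.card_subtype,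
      Finset.card_def, Finset.filter_val]
    congr 1
    apply Multiset.filter_congr
    intro x _
    exact eq_comm
  have hFm : ∀ x ∈ F, 1 ≤ x ∧ x ≤ Δ := by
    intro x hx
    rw [hF, Multiset.mem_filter] at hx
    obtain ⟨hx, hx0⟩ := hx
    rw [hDdef, Multiset.mem_map] at hx
    obtain ⟨i, -, rfl⟩ := hx
    exact ⟨Nat.one_le_iff_ne_zero.2 hx0, hv i⟩
  have hRF : Rz F := by
    apply hM Δ F hFm
    · rw [hsumF, hsum]
      exact hpar
    · rw [hdem]
      unfold supply
      rw [hcnt 1 (by norm_num), hcnt 2 (by norm_num), hcnt 3 (by norm_num), hcnt 4 (by norm_num),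
        hcnt 5 (by norm_num)]
      exact hsup
  have hRD : Rz D := by
    rw [hsplit]
    exact hA _ _ (rz_zeros hA hS _) hRF
  obtain ⟨V, hV, G, hB, hG⟩ := hRD
  obtain ⟨e, he⟩ := exists_equiv v (dg G) hG.symm
  refine ⟨G.comap e, planar_comap e G (hD V G hB), ?_⟩
  intro i
  rw [dg_comap, he]

end PDS.H42
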