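import Pool.Agent.Helper70_PDS.Stmts

/-! # SWEEP: many vertices of degrees at least 6 of the same parity -/

namespace PDS.H42

open Multiset PDS

theorem raise_many {c i k : ℕ} (h : Raise c i k) (r x : ℕ) :
    ∀ D : Multiset ℕ, Rz (replicate r x + D) →
      Rz (replicate r (x + c) + D + replicate (r * k) i) := by
  induction r with
  | zero =>
    intro D hD
    simpa using hD
  | succ r ih =>
    intro D hD
    have h1 : replicate (r + 1) x + D = x ::ₘ (replicate r x + D) := by
      rw [replicate_succ, cons_add]
    rw [h1] at hD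
    have h2 := h x _ hD
    have h3 : (x + c) ::ₘ (replicate r x + D + replicate k i) =
        replicate r x + ((x + c) ::ₘ D + replicate k i) := by
      rw [add_assoc, cons_add, add_cons]
    rw [h3] at h2
    have h4 := ih _ h2
    have h5 : replicate r (x + c) + ((x + c) ::ₘ D + replicate k i) + replicate (r * k) i =
        replicate (r + 1) (x + c) + D + replicate ((r + 1) * k) i := by
      rw [replicate_succ, Nat.add_mul, one_mul, replicate_add]
      simp only [cons_add, add_cons]
      congr 1
      abel
    rw [h5] at h4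
    exact h4

theorem gad2 (hG : GadStmt) (i : ℕ) (h1 : 1 ≤ i) (h5 : i ≤ 5) :
    ∃ k, Raise 2 i k ∧ cap i * k ≤ 12 := by
  obtain ⟨g1, g2, g3, g4, g5, -⟩ := hG
  obtain rfl | rfl | rfl | rfl | rfl : i = 1 ∨ i = 2 ∨ i = 3 ∨ i = 4 ∨ i = 5 := by omega
  · exact ⟨2, g1, by decide⟩
  · exact ⟨2, g2, by decide⟩
  · exact ⟨4, g3, by decide⟩
  · exact ⟨6, g4, by decide⟩
  · exact ⟨12, g5, by decide⟩

theorem sweep (hT : ∀ i, 1 ≤ i → i ≤ 5 → Tube i) (hG : GadStmt) (hA : AddStmt)
    (hS : SmallStmt) : SweepStmt := by
  intro i hi1 hi5 Δ
  obtain ⟨k, hk, hkc⟩ := gad2 hG i hi1 hi5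
  induction Δ using Nat.strong_induction_on with
  | _ Δ ih =>
  intro K P hP hK
  rcases Nat.lt_or_ge Δ 6 with hΔ | hΔ
  · have hP0 : P = 0 := by
      rw [Multiset.eq_zero_iff_forall_notMem]
      intro p hp
      have := hP p hp
      omega
    subst hP0
    exact ⟨0, by simp, by simpa using hS.1⟩
  · -- the number of the entries equal to `Δ`
    set q := P.count Δ with hq
    set F := P.filter (fun p => ¬ p = Δ) with hF
    have hsplit : P = replicate q Δ + F := by
      have := Multiset.filter_add_not (fun p => p = Δ) P
      rw [Multiset.filter_eq'] at this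
      exact this.symm
    have hcard : q + card F = 8 * K := by
      rw [← hK]
      conv_rhs => rw [hsplit]
      simp
    have hFm : ∀ p ∈ F, 6 ≤ p ∧ p + 2 ≤ Δ ∧ p % 2 = Δ % 2 := by
      intro p hp
      rw [hF, Multiset.mem_filter] at hp
      have := hP p hp.1
      have := hp.2
      omega
    set b := q / 8 with hb
    set r := q % 8 with hr
    have hqbr : q = 8 * b + r := by omega
    have hr8 : r < 8 := Nat.mod_lt _ (by norm_num)
    have hbK : b ≤ K := by omega
    obtain ⟨a1, ha1, hR1⟩ := hT i hi1 hi5 (Δ - 6) b
    have e1 : Δ - 6 + 6 = Δ := by omega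
    rw [e1] at hR1
    have hsum : (P.map fun p => p - 6).sum = q * (Δ - 6) + (F.map fun p => p - 6).sum := by
      conv_lhs => rw [hsplit]
      simp [Multiset.map_add, Multiset.map_replicate]
    rcases Nat.lt_or_ge Δ 8 with hΔ8 | hΔ8
    · -- all entries are equal to `Δ`
      have hF0 : F = 0 := by
        rw [Multiset.eq_zero_iff_forall_notMem]
        intro p hp
        have := hFm p hp
        omega
      have hr0 : r = 0 := by
        rw [hF0] at hcard
        simp at hcard
        omega
      refine ⟨a1, ?_, ?_⟩
      · rw [hsum, hqbr, hr0]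
        simp only [add_zero]
        omega
      · rw [hsplit, hF0, hqbr, hr0]
        simpa using hR1
    · obtain ⟨a2, ha2, hR2⟩ := ih (Δ - 2) (by omega) (K - b) (replicate r (Δ - 2) + F) (by
        intro p hp
        rw [Multiset.mem_add] at hp
        rcases hp with hp | hp
        · have := Multiset.eq_of_mem_replicate hp
          omega
        · have := hFm p hp
          omega) (by
        rw [Multiset.card_add, Multiset.card_replicate]
        omega)
      rw [add_assoc] at hR2
      have hR3 := raise_many hk r (Δ - 2) _ hR2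
      have e2 : Δ - 2 + 2 = Δ := by omega
      rw [e2] at hR3
      have hR4 := hA _ _ hR1 hR3
      refine ⟨a1 + (a2 + r * k), ?_, ?_⟩
      · have hs2 : ((replicate r (Δ - 2) + F).map fun p => p - 6).sum =
            r * (Δ - 2 - 6) + (F.map fun p => p - 6).sum := by
          simp [Multiset.map_add, Multiset.map_replicate]
        rw [hs2] at ha2
        rw [hsum, hqbr]
        have h3 : cap i * (r * k) ≤ 84 := by
          calc cap i * (r * k) = r * (cap i * k) := by ring
            _ ≤ 7 * 12 := Nat.mul_le_mul (by omega) hkc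
        obtain ⟨δ, rfl⟩ : ∃ δ, Δ = δ + 8 := ⟨Δ - 8, by omega⟩
        have e3 : δ + 8 - 6 = δ + 2 := by omega
        have e4 : δ + 8 - 2 - 6 = δ := by omega
        have e5 : δ + 8 - 2 = δ + 6 := by omega
        rw [e3] at ha1 ⊢
        rw [e4, e5] at ha2
        have h4 : cap i * (a1 + (a2 + r * k)) = cap i * a1 + cap i * a2 + cap i * (r * k) := by
          ring
        rw [h4]
        have h5 : (8 * b + r) * (δ + 2) = 8 * b * (δ + 2) + r * δ + 2 * r := by ring
        rw [h5]
        omega
      · have e6 : P + replicate (a1 + (a2 + r * k)) i =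
            replicate (8 * b) Δ + replicate a1 i + (replicate r Δ + (F + replicate a2 i) +
              replicate (r * k) i) := by
          conv_lhs => rw [hsplit]
          rw [hqbr, replicate_add, replicate_add, replicate_add]
          abel
        rw [e6]
        exact hR4

end PDS.H42
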