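import Pool.Agent.Helper70_PDS.Stmts

/-! # TUBE3O: tubes with free vertices of degree 3, odd parameter -/

namespace PDS.H42

open Multiset PDS

/-! ### heights -/

/-- the height of `(k, s)` -/
def ht {K w : ℕ} (q : Fin K × Fin w) : ℕ := (q.1 : ℕ) * w + (q.2 : ℕ)

theorem ht_lt {K w : ℕ} (p q : Fin K × Fin w) :
    ht p < ht q ↔ (p.1 : ℕ) < q.1 ∨ ((p.1 : ℕ) = q.1 ∧ (p.2 : ℕ) < q.2) := by
  unfold ht
  have h1 := p.2.isLt
  have h2 := q.2.isLt
  rcases lt_trichotomy (p.1 : ℕ) (q.1 : ℕ) with h | h | h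
  · have h3 : ((p.1 : ℕ) + 1) * w ≤ (q.1 : ℕ) * w := Nat.mul_le_mul_right _ h
    rw [Nat.add_mul, one_mul] at h3
    constructor
    · intro _
      exact Or.inl h
    · intro _
      omega
  · rw [h]
    omega
  · have h3 : ((q.1 : ℕ) + 1) * w ≤ (p.1 : ℕ) * w := Nat.mul_le_mul_right _ h
    rw [Nat.add_mul, one_mul] at h3
    omega

theorem ht_le {K w : ℕ} (p q : Fin K × Fin w) :
    ht p ≤ ht q ↔ (p.1 : ℕ) < q.1 ∨ ((p.1 : ℕ) = q.1 ∧ (p.2 : ℕ) ≤ q.2) := by
  rw [← not_lt, ht_lt]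
  omega

theorem ht_inj {K w : ℕ} : Function.Injective (ht : Fin K × Fin w → ℕ) := by
  intro p q h
  have h1 : ¬ ht p < ht q := by omega
  have h2 : ¬ ht q < ht p := by omega
  rw [ht_lt] at h1 h2
  apply Prod.ext <;> apply Fin.ext <;> omega

/-! ### counting -/

theorem ncard_box {K w : ℕ} (D : Set (Fin K × Fin w)) (a l u : ℕ) (ha : a < K) (hu : u ≤ w)
    (h : ∀ r : Fin K × Fin w, r ∈ D ↔ (r.1 : ℕ) = a ∧ l ≤ (r.2 : ℕ) ∧ (r.2 : ℕ) < u) :
    D.ncard = u - l := by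
  have h1 : Set.InjOn (fun r : Fin K × Fin w => (r.2 : ℕ)) D := by
    intro p hp q hq hpq
    rw [h] at hp hq
    simp only at hpq
    apply Prod.ext <;> apply Fin.ext <;> omega
  have h2 : (fun r : Fin K × Fin w => (r.2 : ℕ)) '' D = ((Finset.Ico l u : Finset ℕ) : Set ℕ) := by
    ext j
    simp only [Set.mem_image, Finset.coe_Ico, Set.mem_Ico]
    constructor
    · rintro ⟨r, hr, rfl⟩
      exact ((h r).1 hr).2
    · rintro ⟨hj1, hj2⟩
      exact ⟨(⟨a, ha⟩, ⟨j, by omega⟩), (h _).2 ⟨rfl, hj1, hj2⟩, rfl⟩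
  rw [← Set.InjOn.ncard_image h1, h2, Set.ncard_coe_finset, Nat.card_Ico]

theorem ncard_emp {K w : ℕ} (D : Set (Fin K × Fin w)) (h : ∀ r : Fin K × Fin w, r ∉ D) :
    D.ncard = 0 := by
  have : D = ∅ := Set.eq_empty_iff_forall_notMem.2 h
  rw [this, Set.ncard_empty]

theorem ncard_box2 {K w : ℕ} (D : Set (Fin K × Fin w)) (a l u a' l' u' : ℕ) (ha : a < K)
    (hu : u ≤ w) (ha' : a' < K) (hu' : u' ≤ w) (hd : a ≠ a' ∨ u ≤ l' ∨ u' ≤ l)
    (h : ∀ r : Fin K × Fin w, r ∈ D ↔ ((r.1 : ℕ) = a ∧ l ≤ (r.2 : ℕ) ∧ (r.2 : ℕ) < u) ∨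
      ((r.1 : ℕ) = a' ∧ l' ≤ (r.2 : ℕ) ∧ (r.2 : ℕ) < u')) :
    D.ncard = (u - l) + (u' - l') := by
  have h1 : D = {r : Fin K × Fin w | (r.1 : ℕ) = a ∧ l ≤ (r.2 : ℕ) ∧ (r.2 : ℕ) < u} ∪
      {r : Fin K × Fin w | (r.1 : ℕ) = a' ∧ l' ≤ (r.2 : ℕ) ∧ (r.2 : ℕ) < u'} := by
    ext r
    exact h r
  have h2 : {r : Fin K × Fin w | (r.1 : ℕ) = a ∧ l ≤ (r.2 : ℕ) ∧ (r.2 : ℕ) < u}.ncard = u - l :=
    ncard_box _ a l u ha hu (fun r => Iff.rfl)
  have h3 : {r : Fin K × Fin w | (r.1 : ℕ) = a' ∧ l' ≤ (r.2 : ℕ) ∧ (r.2 : ℕ) < u'}.ncard =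
      u' - l' := ncard_box _ a' l' u' ha' hu' (fun r => Iff.rfl)
  rw [h1, Set.ncard_union_eq _ (Set.toFinite _) (Set.toFinite _), h2, h3]
  rw [Set.disjoint_left]
  intro r h1 h2
  have h1' : (r.1 : ℕ) = a ∧ l ≤ (r.2 : ℕ) ∧ (r.2 : ℕ) < u := h1
  have h2' : (r.1 : ℕ) = a' ∧ l' ≤ (r.2 : ℕ) ∧ (r.2 : ℕ) < u' := h2
  omega

/-! ### the tube -/

/-- the tube with `K` blocks; block: pole, `m` free vertices, pole, free vertex -/
def T3 (K m : ℕ) : Cyl (Fin K × Fin (m + 3)) where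
  h := ht
  E c p q :=
    ((q.1 : ℕ) = p.1 ∧ (((p.2 : ℕ) = 0 ∧ (q.2 : ℕ) = 0) ∨ ((p.2 : ℕ) = m + 1 ∧ (q.2 : ℕ) = 0) ∨
      ((p.2 : ℕ) = m + 2 ∧ (q.2 : ℕ) = m + 1) ∨
      ((c : ℕ) % 2 = 1 ∧ (p.2 : ℕ) = m + 1 ∧ (q.2 : ℕ) = m + 1))) ∨
    ((p.1 : ℕ) = q.1 + 1 ∧ (p.2 : ℕ) = 0 ∧ (q.2 : ℕ) = m + 1)
  A _ p q :=
    ((q.1 : ℕ) = p.1 ∧ (((p.2 : ℕ) = 0 ∧ 1 ≤ (q.2 : ℕ) ∧ (q.2 : ℕ) < m + 2) ∨
      ((p.2 : ℕ) % 2 = 1 ∧ (q.2 : ℕ) = p.2 + 1 ∧ (q.2 : ℕ) ≤ m) ∨
      ((p.2 : ℕ) = m + 1 ∧ (q.2 : ℕ) = m + 2))) ∨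
    ((q.1 : ℕ) = p.1 + 1 ∧ (q.2 : ℕ) = 0 ∧ m + 1 ≤ (p.2 : ℕ))
  B _ p q := (q.1 : ℕ) = p.1 ∧ 1 ≤ (p.2 : ℕ) ∧ (p.2 : ℕ) < m + 1 ∧ (q.2 : ℕ) = m + 1
  inj := ht_inj
  mono := by
    intro c p q p' q' h1 h2
    rw [ht_lt, ht_le]
    omega
  A_lt := by
    intro c p q h
    rw [ht_lt]
    omega
  B_lt := by
    intro c p q h
    rw [ht_lt]
    omega
  AB := by
    intro c p q h1 h2
    omega
  A_E := by
    intro c p q r x h1 h2 h3 h4
    rw [ht_lt] at h2 h3
    have := r.2.isLt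
    omega
  B_E := by
    intro c p q r x h1 h2 h3 h4
    rw [ht_lt] at h2 h3
    omega
  A_A := by
    intro c p q p' q' h1 h2
    rw [ht_lt, ht_lt, ht_le]
    have := p'.2.isLt
    have := q'.2.isLt
    omega
  B_B := by
    intro c p q p' q' h1 h2
    rw [ht_lt, ht_lt, ht_le]
    omega

theorem c_odd (c : Fin 4) : ((c : ℕ) % 2 = 1 ∧ ((c - 1 : Fin 4) : ℕ) % 2 = 0) ∨
    ((c : ℕ) % 2 = 0 ∧ ((c - 1 : Fin 4) : ℕ) % 2 = 1) := by
  revert c
  decide

/-- the degrees of the tube -/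
theorem T3_degree (K m : ℕ) (hm : m % 2 = 0) (c : Fin 4) (q : Fin K × Fin (m + 3)) :
    dg (T3 K m).graph (c, q) =
      if (q.2 : ℕ) = 0 then (if (q.1 : ℕ) = 0 then m + 4 else m + 7)
      else if (q.2 : ℕ) = m + 1 then (if (q.1 : ℕ) + 1 = K then m + 5 else m + 7)
      else if (q.2 : ℕ) = m + 2 then (if (q.1 : ℕ) + 1 = K then 2 else 3) else 3 := by
  rw [Cyl.degree]
  obtain ⟨⟨k, hk⟩, ⟨s, hs⟩⟩ := q
  have hc := c_odd c
  simp only
  have hr : ∀ r : Fin K × Fin (m + 3), (r.1 : ℕ) < K ∧ (r.2 : ℕ) < m + 3 :=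
    fun r => ⟨r.1.isLt, r.2.isLt⟩
  by_cases hs0 : s = 0
  · -- first pole
    rw [if_pos hs0]
    rw [ncard_box {r | (T3 K m).A c (⟨k, hk⟩, ⟨s, hs⟩) r} k 1 (m + 2) hk (by omega) (by
      intro r
      have := hr r
      simp only [T3, Set.mem_ofPred_eq]
      omega)]
    rw [ncard_emp {r | (T3 K m).B c (⟨k, hk⟩, ⟨s, hs⟩) r} (by
      intro r
      simp only [T3, Set.mem_ofPred_eq]
      omega)]
    rw [ncard_emp {r | (T3 K m).B c r (⟨k, hk⟩, ⟨s, hs⟩)} (by
      intro r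
      simp only [T3, Set.mem_ofPred_eq]
      omega)]
    rw [ncard_box2 {r | (T3 K m).E (c - 1) r (⟨k, hk⟩, ⟨s, hs⟩)} k 0 1 k (m + 1) (m + 2) hk
      (by omega) hk (by omega) (by omega) (by
      intro r
      have := hr r
      simp only [T3, Set.mem_ofPred_eq]
      omega)]
    by_cases hk0 : k = 0
    · rw [if_pos hk0]
      rw [ncard_emp {r | (T3 K m).A c r (⟨k, hk⟩, ⟨s, hs⟩)} (by
        intro r
        simp only [T3, Set.mem_ofPred_eq]
        omega)]
      rw [ncard_box {r | (T3 K m).E c (⟨k, hk⟩, ⟨s, hs⟩) r} k 0 1 hk (by omega) (by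
        intro r
        have := hr r
        simp only [T3, Set.mem_ofPred_eq]
        omega)]
      omega
    · rw [if_neg hk0]
      rw [ncard_box {r | (T3 K m).A c r (⟨k, hk⟩, ⟨s, hs⟩)} (k - 1) (m + 1) (m + 3) (by omega)
        (by omega) (by
        intro r
        have := hr r
        simp only [T3, Set.mem_ofPred_eq]
        omega)]
      rw [ncard_box2 {r | (T3 K m).E c (⟨k, hk⟩, ⟨s, hs⟩) r} k 0 1 (k - 1) (m + 1) (m + 2) hk
        (by omega) (by omega) (by omega) (by omega) (by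
        intro r
        have := hr r
        simp only [T3, Set.mem_ofPred_eq]
        omega)]
      omega
  rw [if_neg hs0]
  by_cases hs1 : s = m + 1
  · -- second pole
    rw [if_pos hs1]
    rw [ncard_box {r | (T3 K m).A c r (⟨k, hk⟩, ⟨s, hs⟩)} k 0 1 hk (by omega) (by
      intro r
      have := hr r
      simp only [T3, Set.mem_ofPred_eq]
      omega)]
    rw [ncard_emp {r | (T3 K m).B c (⟨k, hk⟩, ⟨s, hs⟩) r} (by
      intro r
      simp only [T3, Set.mem_ofPred_eq]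
      omega)]
    rw [ncard_box {r | (T3 K m).B c r (⟨k, hk⟩, ⟨s, hs⟩)} k 1 (m + 1) hk (by omega) (by
      intro r
      have := hr r
      simp only [T3, Set.mem_ofPred_eq]
      omega)]
    -- the edges between the lines
    by_cases hkK : k + 1 = K
    · rw [if_pos hkK]
      rw [ncard_box {r | (T3 K m).A c (⟨k, hk⟩, ⟨s, hs⟩) r} k (m + 2) (m + 3) hk (by omega)
        (by
        intro r
        have := hr r
        simp only [T3, Set.mem_ofPred_eq]
        omega)]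
      rcases hc with ⟨hc1, hc2⟩ | ⟨hc1, hc2⟩
      · rw [ncard_box2 {r | (T3 K m).E c (⟨k, hk⟩, ⟨s, hs⟩) r} k 0 1 k (m + 1) (m + 2) hk
          (by omega) hk (by omega) (by omega) (by
          intro r
          have := hr r
          simp only [T3, Set.mem_ofPred_eq]
          omega)]
        rw [ncard_box {r | (T3 K m).E (c - 1) r (⟨k, hk⟩, ⟨s, hs⟩)} k (m + 2) (m + 3) hk
          (by omega) (by
          intro r
          have := hr r
          simp only [T3, Set.mem_ofPred_eq]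
          omega)]
        omega
      · rw [ncard_box {r | (T3 K m).E c (⟨k, hk⟩, ⟨s, hs⟩) r} k 0 1 hk (by omega) (by
          intro r
          have := hr r
          simp only [T3, Set.mem_ofPred_eq]
          omega)]
        rw [ncard_box {r | (T3 K m).E (c - 1) r (⟨k, hk⟩, ⟨s, hs⟩)} k (m + 1) (m + 3) hk
          (by omega) (by
          intro r
          have := hr r
          simp only [T3, Set.mem_ofPred_eq]
          omega)]
        omega
    · rw [if_neg hkK]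
      rw [ncard_box2 {r | (T3 K m).A c (⟨k, hk⟩, ⟨s, hs⟩) r} k (m + 2) (m + 3) (k + 1) 0 1 hk
        (by omega) (by omega) (by omega) (by omega) (by
        intro r
        have := hr r
        simp only [T3, Set.mem_ofPred_eq]
        omega)]
      rcases hc with ⟨hc1, hc2⟩ | ⟨hc1, hc2⟩
      · rw [ncard_box2 {r | (T3 K m).E c (⟨k, hk⟩, ⟨s, hs⟩) r} k 0 1 k (m + 1) (m + 2) hk
          (by omega) hk (by omega) (by omega) (by
          intro r
          have := hr r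
          simp only [T3, Set.mem_ofPred_eq]
          omega)]
        rw [ncard_box2 {r | (T3 K m).E (c - 1) r (⟨k, hk⟩, ⟨s, hs⟩)} k (m + 2) (m + 3)
          (k + 1) 0 1 hk (by omega) (by omega) (by omega) (by omega) (by
          intro r
          have := hr r
          simp only [T3, Set.mem_ofPred_eq]
          omega)]
        omega
      · rw [ncard_box {r | (T3 K m).E c (⟨k, hk⟩, ⟨s, hs⟩) r} k 0 1 hk (by omega) (by
          intro r
          have := hr r
          simp only [T3, Set.mem_ofPred_eq]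
          omega)]
        rw [ncard_box2 {r | (T3 K m).E (c - 1) r (⟨k, hk⟩, ⟨s, hs⟩)} k (m + 1) (m + 3)
          (k + 1) 0 1 hk (by omega) (by omega) (by omega) (by omega) (by
          intro r
          have := hr r
          simp only [T3, Set.mem_ofPred_eq]
          omega)]
        omega
  rw [if_neg hs1]
  by_cases hs2 : s = m + 2
  · -- the free vertex after the second pole
    rw [if_pos hs2]
    rw [ncard_box {r | (T3 K m).A c r (⟨k, hk⟩, ⟨s, hs⟩)} k (m + 1) (m + 2) hk (by omega) (by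
      intro r
      have := hr r
      simp only [T3, Set.mem_ofPred_eq]
      omega)]
    rw [ncard_emp {r | (T3 K m).B c (⟨k, hk⟩, ⟨s, hs⟩) r} (by
      intro r
      simp only [T3, Set.mem_ofPred_eq]
      omega)]
    rw [ncard_emp {r | (T3 K m).B c r (⟨k, hk⟩, ⟨s, hs⟩)} (by
      intro r
      simp only [T3, Set.mem_ofPred_eq]
      omega)]
    rw [ncard_box {r | (T3 K m).E c (⟨k, hk⟩, ⟨s, hs⟩) r} k (m + 1) (m + 2) hk (by omega) (by
      intro r
      have := hr r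
      simp only [T3, Set.mem_ofPred_eq]
      omega)]
    rw [ncard_emp {r | (T3 K m).E (c - 1) r (⟨k, hk⟩, ⟨s, hs⟩)} (by
      intro r
      simp only [T3, Set.mem_ofPred_eq]
      omega)]
    by_cases hkK : k + 1 = K
    · rw [if_pos hkK]
      rw [ncard_emp {r | (T3 K m).A c (⟨k, hk⟩, ⟨s, hs⟩) r} (by
        intro r
        have := hr r
        simp only [T3, Set.mem_ofPred_eq]
        omega)]
      omega
    · rw [if_neg hkK]
      rw [ncard_box {r | (T3 K m).A c (⟨k, hk⟩, ⟨s, hs⟩) r} (k + 1) 0 1 (by omega) (by omega)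
        (by
        intro r
        have := hr r
        simp only [T3, Set.mem_ofPred_eq]
        omega)]
      omega
  rw [if_neg hs2]
  -- the free vertices between the poles
  rw [ncard_box {r | (T3 K m).B c (⟨k, hk⟩, ⟨s, hs⟩) r} k (m + 1) (m + 2) hk (by omega) (by
    intro r
    have := hr r
    simp only [T3, Set.mem_ofPred_eq]
    omega)]
  rw [ncard_emp {r | (T3 K m).B c r (⟨k, hk⟩, ⟨s, hs⟩)} (by
    intro r
    simp only [T3, Set.mem_ofPred_eq]
    omega)]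
  rw [ncard_emp {r | (T3 K m).E c (⟨k, hk⟩, ⟨s, hs⟩) r} (by
    intro r
    simp only [T3, Set.mem_ofPred_eq]
    omega)]
  rw [ncard_emp {r | (T3 K m).E (c - 1) r (⟨k, hk⟩, ⟨s, hs⟩)} (by
    intro r
    simp only [T3, Set.mem_ofPred_eq]
    omega)]
  rcases Nat.mod_two_eq_zero_or_one s with hpar | hpar
  · rw [ncard_emp {r | (T3 K m).A c (⟨k, hk⟩, ⟨s, hs⟩) r} (by
      intro r
      simp only [T3, Set.mem_ofPred_eq]
      omega)]
    rw [ncard_box2 {r | (T3 K m).A c r (⟨k, hk⟩, ⟨s, hs⟩)} k 0 1 k (s - 1) s hk (by omega) hk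
      (by omega) (by omega) (by
      intro r
      have := hr r
      simp only [T3, Set.mem_ofPred_eq]
      omega)]
    omega
  · rw [ncard_box {r | (T3 K m).A c (⟨k, hk⟩, ⟨s, hs⟩) r} k (s + 1) (s + 2) hk (by omega) (by
      intro r
      have := hr r
      simp only [T3, Set.mem_ofPred_eq]
      omega)]
    rw [ncard_box {r | (T3 K m).A c r (⟨k, hk⟩, ⟨s, hs⟩)} k 0 1 hk (by omega) (by
      intro r
      have := hr r
      simp only [T3, Set.mem_ofPred_eq]
      omega)]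
    omega

/-! ### multisets -/

theorem map_ite {α : Type} (S : Multiset α) (p : α → Prop) [DecidablePred p] (x y : ℕ) :
    S.map (fun v => if p v then x else y) =
      replicate (card (S.filter p)) x + replicate (card (S.filter fun v => ¬ p v)) y := by
  conv_lhs => rw [← Multiset.filter_add_not p S]
  rw [Multiset.map_add]
  congr 1
  · rw [Multiset.map_congr rfl (g := fun _ => x), Multiset.map_const']
    intro v hv
    rw [if_pos (Multiset.mem_filter.1 hv).2]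
  · rw [Multiset.map_congr rfl (g := fun _ => y), Multiset.map_const']
    intro v hv
    rw [if_neg (Multiset.mem_filter.1 hv).2]

theorem card_slice (K w : ℕ) (T : Finset (Fin w)) :
    card ((Finset.univ : Finset (Fin 4 × (Fin K × Fin w))).val.filter
      (fun v => v.2.2 ∈ T)) = 4 * (K * T.card) := by
  rw [← Finset.filter_val, ← Finset.card_def]
  have : (Finset.univ : Finset (Fin 4 × (Fin K × Fin w))).filter (fun v => v.2.2 ∈ T) =
      (Finset.univ : Finset (Fin 4)) ×ˢ ((Finset.univ : Finset (Fin K)) ×ˢ T) := by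
    ext v
    simp
  rw [this, Finset.card_product, Finset.card_product]
  simp

/-- indicator sums over the vertices at one place of every line -/
theorem sum_ind (K w : ℕ) (k0 : Fin K) (s0 : Fin w) :
    ∑ v : Fin 4 × (Fin K × Fin w), (if v.2 = (k0, s0) then 1 else 0) = 4 := by
  rw [Fintype.sum_prod_type]
  simp

theorem tube3o (h2 : Raise 2 3 4) (h1 : Raise 1 3 5) (hF : FillStmt) (h0 : Rz 0) :
    ∀ b K : ℕ, b % 2 = 1 → ∃ a : ℕ, cap 3 * a ≤ 8 * K * b + 250 ∧
      Rz (replicate (8 * K) (b + 6) + replicate a 3) := by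
  intro b K hb
  rcases Nat.eq_zero_or_pos K with hK | hK
  · subst hK
    exact ⟨0, by simp, by simpa using h0⟩
  obtain ⟨m, rfl⟩ : ∃ m, b = m + 1 := ⟨b - 1, by omega⟩
  have hm : m % 2 = 0 := by omega
  have hbk : Book2 (T3 K m).graph := (T3 K m).book
  set V := Fin 4 × (Fin K × Fin (m + 3)) with hV
  let f : V → ℕ := dg (T3 K m).graph
  let e1 : V → ℕ := fun v => (if v.2 = (⟨0, hK⟩, ⟨0, by omega⟩) then 1 else 0) +
    (if v.2 = (⟨K - 1, by omega⟩, ⟨m + 2, by omega⟩) then 1 else 0)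
  let e2 : V → ℕ := fun v => (if v.2 = (⟨0, hK⟩, ⟨0, by omega⟩) then 1 else 0) +
    (if v.2 = (⟨K - 1, by omega⟩, ⟨m + 1, by omega⟩) then 1 else 0)
  have hs1 : ∑ v, e1 v = 8 := by
    simp only [e1]
    rw [Finset.sum_add_distrib, sum_ind, sum_ind]
  have hs2 : ∑ v, e2 v = 8 := by
    simp only [e2]
    rw [Finset.sum_add_distrib, sum_ind, sum_ind]
  have hR0 : Rz ((Finset.univ : Finset V).val.map f + 0) := by
    rw [add_zero]
    exact ⟨V, inferInstance, (T3 K m).graph, hbk, rfl⟩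
  have hR1 := hF 1 3 5 h1 V f e1 0 hR0
  rw [hs1, add_assoc] at hR1
  have hR2 := hF 2 3 4 h2 V _ e2 _ hR1
  rw [hs2] at hR2
  let T : Finset (Fin (m + 3)) := {⟨0, by omega⟩, ⟨m + 1, by omega⟩}
  have hT : T.card = 2 := by
    apply Finset.card_pair
    intro h
    have := congrArg Fin.val h
    simp at this
  have hfun : (fun v => f v + 1 * e1 v + 2 * e2 v) =
      fun v : V => if v.2.2 ∈ T then (m + 1) + 6 else 3 := by
    funext v
    obtain ⟨c, k, s⟩ := v
    have hd : f (c, (k, s)) = _ := T3_degree K m hm c (k, s)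
    rw [hd]
    have hk := k.isLt
    have hs := s.isLt
    simp only [e1, e2, T, Prod.mk.injEq, Finset.mem_insert, Finset.mem_singleton, Fin.ext_iff]
    split_ifs <;> omega
  rw [hfun] at hR2
  rw [map_ite, card_slice, hT] at hR2
  have hcard : card ((Finset.univ : Finset V).val.filter (fun v => ¬ v.2.2 ∈ T)) =
      4 * (K * (m + 1)) := by
    have h3 := congrArg card (Multiset.filter_add_not (fun v : V => v.2.2 ∈ T)
      (Finset.univ : Finset V).val)
    have h4 : card (Finset.univ : Finset V).val = 4 * (K * 2) + 4 * (K * (m + 1)) := by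
      rw [← Finset.card_def]
      simp only [hV, Finset.card_univ, Fintype.card_prod, Fintype.card_fin]
      ring
    rw [Multiset.card_add, card_slice, hT, h4] at h3
    exact Nat.add_left_cancel h3
  rw [hcard] at hR2
  refine ⟨4 * (K * (m + 1)) + 5 * 8 + 4 * 8, ?_, ?_⟩
  · have : cap 3 = 2 := by decide
    rw [this]
    have h5 : 8 * K * (m + 1) = 2 * (4 * (K * (m + 1))) := by ring
    rw [h5]
    omega
  · have h6 : replicate (4 * (K * 2)) (m + 1 + 6) + replicate (4 * (K * (m + 1))) 3 +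
        (0 + replicate (5 * 8) 3) + replicate (4 * 8) 3 =
        replicate (8 * K) (m + 1 + 6) + replicate (4 * (K * (m + 1)) + 5 * 8 + 4 * 8) 3 := by
      have h7 : 4 * (K * 2) = 8 * K := by ring
      rw [h7, replicate_add, replicate_add, zero_add]
      simp only [add_assoc]
    rw [h6] at hR2
    exact hR2

end PDS.H42
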